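import Pool.Agent.H8.Spiral3

namespace Pool.Agent.Results.MP_f80956_co.AllArms
open Set Function Topology NNReal

/-- The regular hexagon whose vertices are the sixth roots of unity. -/
def H : Set ℂ := convexHull ℝ {z : ℂ | z ^ 6 = 1}

/-- An arc: an injective continuous (hence homeomorphic) image of `[0,1]`. -/
def IsArc (A : Set ℂ) : Prop :=
  ∃ f : unitInterval → ℂ, Continuous f ∧ Injective f ∧ range f = A

/-- The image of a proper continuous injective map from `ℝ` or from `[0,∞)`. -/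
def IsCurve (C : Set ℂ) : Prop :=
  (∃ f : ℝ → ℂ, IsProperMap f ∧ Injective f ∧ range f = C) ∨
    ∃ f : ℝ≥0 → ℂ, IsProperMap f ∧ Injective f ∧ range f = C

/-- Some marking `M` of `H` and some tiling by the images `σ i '' H` are such that the union of
the carried arcs is the disjoint union of `n` unbounded simple curves. -/
def Spiral (n : ℕ) : Prop :=
  ∃ (ι : Type) (σ : ι → ℂ → ℂ) (M : Set (Set ℂ)) (C : Fin n → Set ℂ), Countable ι ∧
    (∀ i, Isometry (σ i)) ∧ ⋃ i, σ i '' H = univ ∧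
    (Pairwise fun i j => Disjoint (interior (σ i '' H)) (interior (σ j '' H))) ∧
    M.Finite ∧ M.Nonempty ∧ (∀ A ∈ M, IsArc A ∧ A ⊆ H) ∧
    (∀ j, IsCurve (C j)) ∧ (Pairwise fun i j => Disjoint (C i) (C j)) ∧
    ⋃ i, σ i '' ⋃₀ M = ⋃ j, C j

open Pool.Agent.H8.Spiral Pool.Agent.H8.Edge in
theorem result (n : ℕ) (hn : 0 < n) : Spiral n := by
  obtain ⟨γ, κ, g1, g3, g4⟩ := hexa hn
  have r1 : ‖ρ‖ = 1 := (pow_eq_one_iff_of_nonneg (norm_nonneg _) three_ne_zero).1
    (by rw [← norm_pow, ρ3, norm_one])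
  have r6 : ∀ k : ℕ, (ρ ^ k) ^ 6 = 1 := fun k => by
    rw [← pow_mul, show k * 6 = 3 * (2 * k) by ring, pow_mul, ρ3, one_pow]
  have e : ∀ (k : ℕ) d, (fun z => ρ ^ k * z + d) '' H = (· + d) '' H := fun k d => by
    rw [← image_image (· + d) (ρ ^ k * ·)]
    congr 1
    refine ((LinearMap.mul ℝ ℂ (ρ ^ k)).image_convexHull _).trans (congrArg _ ?_)
    ext z
    refine ⟨?_, fun h => ⟨(ρ ^ k) ^ 5 * z, ?_, ?_⟩⟩
    · rintro ⟨w, hw, rfl⟩
      simpa [mul_pow, r6] using hw
    · rw [mem_setOf_eq, mul_pow, ← pow_mul, mul_comm 5, pow_mul, r6, h]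
      simp
    · simpa using (by linear_combination z * r6 k : ρ ^ k * ((ρ ^ k) ^ 5 * z) = z)
  refine ⟨_, fun q z => ρ ^ κ q * z + L6 (c q), {segment ℝ (ρ ^ 2) 1}, fun j => range (γ j),
    inferInstance, fun q => iso (by simp [r1]) _, ?_, fun i j h => ?_, finite_singleton _,
    singleton_nonempty _, ?_, fun j => .inr ⟨_, (g1 j).isProperMap, (g1 j).injective, rfl⟩, g3,
    by rwa [sUnion_singleton]⟩
  · simp only [e]
    exact eq_univ_of_forall fun z => mem_iUnion.2 (hex_cover z)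
  · simp only [e]
    exact hex_disj h
  · rintro _ rfl
    refine ⟨arc fun h => ?_, segment_subset_convexHull (r6 2) (one_pow 6)⟩
    have := congrArg Complex.re (ρ2.symm.trans h)
    norm_num [ρ] at this

end Pool.Agent.Results.MP_f80956_co.AllArms
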